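import Pool.Agent.E8helper19.LC.Stm

/-!
# Project LC, part LC9: qualitative properties of the kernel `D` for fixed `α`
-/

set_option autoImplicit false
open MeasureTheory Filter Topology Set
open scoped ContDiff Real

namespace Pool.Agent.E8helper57.LC

open Pool.Agent.E8helper19.LC

theorem measurable_Gk (μ : ℝ) : Measurable (Gk μ) := by
  have h : StronglyMeasurable (fun z : ℝ × ℝ =>
      (4 * π * z.2)⁻¹ * Real.exp (-(z.1 ^ 2 / (4 * z.2) + μ ^ 2 * z.2))) := by
    apply Measurable.stronglyMeasurable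
    fun_prop
  exact (h.integral_prod_right' (ν := volume.restrict (Ioi 0))).measurable

theorem mu_pos {k α : ℝ} (hk : 0 < k) (hα : 2 * k < α) : 0 < mu α k := by
  unfold mu
  apply Real.sqrt_pos.2
  nlinarith

theorem integrable_abs {F : ℝ → ℝ} (h : IntegrableOn F (Ioi 0)) :
    Integrable (fun x => F |x|) := by
  have h1 : IntegrableOn (fun x => F |x|) (Ioi 0) :=
    h.congr_fun (fun x hx => by simp only [abs_of_pos (show (0 : ℝ) < x from hx)])
      measurableSet_Ioi
  have h2 : IntegrableOn (fun x => F |x|) (Iic 0) := by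
    rw [← Measure.map_neg_eq_self (volume : Measure ℝ)]
    let m : MeasurableEmbedding fun x : ℝ => -x := (Homeomorph.neg ℝ).measurableEmbedding
    rw [m.integrableOn_map_iff]
    simp_rw [Function.comp_def, abs_neg, neg_preimage, neg_Iic, neg_zero]
    exact Iff.mpr integrableOn_Ici_iff_integrableOn_Ioi h1
  rw [← integrableOn_univ, ← Iic_union_Ioi (a := (0 : ℝ))]
  exact h2.union h1

structure Hyp (γ : ℝ → P) (L k α c : ℝ) (H : ℝ → ℝ) : Prop where
  crv : Crv γ L
  hk : 0 < k
  hα : 2 * k < α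
  c0 : 0 < c
  chord : ∀ s t, c * |s - t| ≤ ‖γ s - γ t‖
  chord' : ∀ s t, ‖γ s - γ t‖ ≤ |s - t|
  Gpos : ∀ μ ρ : ℝ, 0 < μ → 0 < ρ → 0 < Gk μ ρ ∧ Gk μ ρ = Gk 1 (μ * ρ)
  Gcont : ∀ μ : ℝ, 0 < μ → ContinuousOn (Gk μ) (Ioi 0)
  Ganti : ∀ x y : ℝ, 0 < x → x ≤ y → Gk 1 y ≤ Gk 1 x
  Gint : ∀ μ : ℝ, 0 < μ → Integrable (fun x => Gk μ |x|)
  Hmeas : Measurable H
  Hpos : ∀ x, 0 < x → 0 ≤ H x
  Hanti : ∀ x y, 0 < x → x ≤ y → H y ≤ H x
  GH : ∀ x y, 0 < x → x ≤ y → Gk 1 x - Gk 1 y ≤ (y - x) * H x
  Hint : ∀ j : ℕ, 1 ≤ j → IntegrableOn (fun x => x ^ j * H x) (Ioi 0)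

/-- the majorant -/
noncomputable def hh (k α c : ℝ) (H : ℝ → ℝ) (r : ℝ) : ℝ :=
  α * mu α k * |r| * H (mu α k * c * |r|)

section
variable {γ : ℝ → P} {L k α c : ℝ} {H : ℝ → ℝ}

theorem Hyp.α0 (X : Hyp γ L k α c H) : 0 < α := by linarith [X.hk, X.hα]

theorem Hyp.μ0 (X : Hyp γ L k α c H) : 0 < mu α k := mu_pos X.hk X.hα

theorem Hyp.γc (X : Hyp γ L k α c H) : Continuous γ := X.crv.smooth.continuous

theorem Hyp.hh0 (X : Hyp γ L k α c H) (r : ℝ) : 0 ≤ hh k α c H r := by
  unfold hh
  have h1 := X.α0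
  have h2 := X.μ0
  rcases eq_or_ne r 0 with rfl | hr
  · simp
  · have h3 : 0 < |r| := abs_pos.2 hr
    have h4 := X.Hpos (mu α k * c * |r|) (mul_pos (mul_pos h2 X.c0) h3)
    positivity

theorem Dk_self (s : ℝ) : Dk α k γ s s = 0 := by
  unfold Dk
  simp

theorem dist_pos (X : Hyp γ L k α c H) {s t : ℝ} (h : s ≠ t) : 0 < ‖γ s - γ t‖ :=
  lt_of_lt_of_le (mul_pos X.c0 (abs_pos.2 (sub_ne_zero.2 h))) (X.chord s t)

theorem Dk_bd (X : Hyp γ L k α c H) (s t : ℝ) :
    0 ≤ Dk α k γ s t ∧ Dk α k γ s t ≤ hh k α c H (t - s) := by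
  rcases eq_or_ne s t with rfl | h
  · rw [Dk_self]
    exact ⟨le_rfl, X.hh0 _⟩
  · have h1 := X.α0
    have h2 := X.μ0
    have h3 := dist_pos X h
    have h4 : 0 < |s - t| := abs_pos.2 (sub_ne_zero.2 h)
    have h5 := X.chord s t
    have h6 := X.chord' s t
    have h7 : mu α k * ‖γ s - γ t‖ ≤ mu α k * |s - t| := mul_le_mul_of_nonneg_left h6 h2.le
    have h8 : 0 < mu α k * ‖γ s - γ t‖ := mul_pos h2 h3
    unfold Dk
    rw [(X.Gpos _ _ h2 h3).2, (X.Gpos _ _ h2 h4).2]
    constructor
    · exact mul_nonneg h1.le (sub_nonneg.2 (X.Ganti _ _ h8 h7))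
    · unfold hh
      rw [abs_sub_comm t s]
      have h9 : 0 < mu α k * c * |s - t| := mul_pos (mul_pos h2 X.c0) h4
      have h10 : mu α k * c * |s - t| ≤ mu α k * ‖γ s - γ t‖ := by
        rw [mul_assoc]
        exact mul_le_mul_of_nonneg_left h5 h2.le
      have h11 := X.GH _ _ h8 h7
      have h12 := X.Hanti _ _ h9 h10
      have h13 := X.Hpos _ h8
      calc α * (Gk 1 (mu α k * ‖γ s - γ t‖) - Gk 1 (mu α k * |s - t|))
          ≤ α * ((mu α k * |s - t| - mu α k * ‖γ s - γ t‖) * H (mu α k * ‖γ s - γ t‖)) :=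
            mul_le_mul_of_nonneg_left h11 h1.le
        _ ≤ α * ((mu α k * |s - t|) * H (mu α k * c * |s - t|)) := by
            refine mul_le_mul_of_nonneg_left ?_ h1.le
            refine mul_le_mul (by linarith) h12 h13 (by positivity)
        _ = α * mu α k * |s - t| * H (mu α k * c * |s - t|) := by ring

theorem Dk_symm (s t : ℝ) : Dk α k γ s t = Dk α k γ t s := by
  unfold Dk
  rw [norm_sub_rev, abs_sub_comm]

/-- `D` vanishes on the leads. -/
theorem Dk_lead (X : Hyp γ L k α c H) (s r : ℝ) (h : L + |r| < |s|) :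
    Dk α k γ s (s + r) = 0 := by
  have hL := X.crv.pos
  have key : ‖γ s - γ (s + r)‖ = |s - (s + r)| := by
    rcases lt_abs.1 h with h1 | h1
    · have a1 : L ≤ s := by
        have := abs_nonneg r
        linarith
      have a2 : L ≤ s + r := by
        have := neg_abs_le r
        linarith
      rw [X.crv.right s a1, X.crv.right (s + r) a2, add_sub_add_left_eq_sub, ← sub_smul, norm_smul,
        X.crv.unit, mul_one, Real.norm_eq_abs]
      congr 1
      ring
    · have a1 : s ≤ -L := by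
        have := abs_nonneg r
        linarith
      have a2 : s + r ≤ -L := by
        have := le_abs_self r
        linarith
      rw [X.crv.left s a1, X.crv.left (s + r) a2, add_sub_add_left_eq_sub, ← sub_smul, norm_smul,
        X.crv.unit, mul_one, Real.norm_eq_abs]
      congr 1
      ring
  unfold Dk
  rw [key, sub_self, mul_zero]

theorem hh_int (X : Hyp γ L k α c H) (j : ℕ) :
    Integrable (fun r => |r| ^ j * hh k α c H r) := by
  have hm : 0 < mu α k * c := mul_pos X.μ0 X.c0
  have h1 := X.Hint (j + 1) (by omega)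
  have h2 : IntegrableOn (fun x => (mu α k * c * x) ^ (j + 1) * H (mu α k * c * x)) (Ioi 0) := by
    have := (integrableOn_Ioi_comp_mul_left_iff (fun x => x ^ (j + 1) * H x) 0 hm).2
      (by simpa using h1)
    exact this
  have h3 := (integrable_abs h2).const_mul (α * mu α k / (mu α k * c) ^ (j + 1))
  refine h3.congr (Eventually.of_forall fun r => ?_)
  simp only [hh]
  have h4 : (mu α k * c) ^ (j + 1) ≠ 0 := by positivity
  rw [mul_pow (mu α k * c), pow_succ |r|]
  generalize (mu α k * c) ^ (j + 1) = M at h4 ⊢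
  field_simp

theorem measurable_Dk (X : Hyp γ L k α c H) :
    Measurable (fun z : ℝ × ℝ => Dk α k γ z.1 z.2) := by
  have h1 := measurable_Gk (mu α k)
  have h2 := X.γc
  unfold Dk
  refine Measurable.const_mul (Measurable.sub (h1.comp ?_) (h1.comp ?_)) _
  · exact (Continuous.norm ((h2.comp continuous_fst).sub (h2.comp continuous_snd))).measurable
  · exact (Continuous.abs (continuous_fst.sub continuous_snd)).measurable

theorem Dk_int_right (X : Hyp γ L k α c H) (s : ℝ) : Integrable (fun t => Dk α k γ s t) := by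
  have h0 := hh_int X 0
  simp only [pow_zero, one_mul] at h0
  refine Integrable.mono' (h0.comp_sub_right s)
    ((measurable_Dk X).comp (measurable_const.prodMk measurable_id)).aestronglyMeasurable
    (Eventually.of_forall fun t => ?_)
  obtain ⟨h1, h2⟩ := Dk_bd X s t
  rw [Real.norm_eq_abs, abs_of_nonneg h1]
  exact h2

theorem G_int (X : Hyp γ L k α c H) (s : ℝ) :
    Integrable (fun t => Gk (mu α k) ‖γ s - γ t‖) := by
  have h0 := (X.Gint (mu α k * c) (mul_pos X.μ0 X.c0)).comp_sub_left s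
  refine Integrable.mono' h0 ?_ ?_
  · exact ((measurable_Gk _).comp
      (Continuous.norm (continuous_const.sub X.γc)).measurable).aestronglyMeasurable
  · have hae : ∀ᵐ t : ℝ, t ≠ s := by
      rw [ae_iff]
      simp
    filter_upwards [hae] with t ht
    have h1 := dist_pos X (Ne.symm ht)
    have h2 := X.Gpos _ _ X.μ0 h1
    have h3 : 0 < |s - t| := abs_pos.2 (sub_ne_zero.2 (Ne.symm ht))
    rw [Real.norm_eq_abs, abs_of_pos h2.1, h2.2, (X.Gpos _ _ (mul_pos X.μ0 X.c0) h3).2]
    apply X.Ganti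
    · exact mul_pos (mul_pos X.μ0 X.c0) h3
    · rw [mul_assoc]
      exact mul_le_mul_of_nonneg_left (X.chord s t) X.μ0.le

theorem G0_int (X : Hyp γ L k α c H) (s : ℝ) : Integrable (fun t => Gk (mu α k) |s - t|) :=
  (X.Gint (mu α k) X.μ0).comp_sub_left s

/-- joint integrability -/
theorem Dk_int (X : Hyp γ L k α c H) : Integrable (fun z : ℝ × ℝ => Dk α k γ z.1 z.2) := by
  have hmp : MeasurePreserving (fun z : ℝ × ℝ => (z.1, z.1 + z.2))
      ((volume : Measure ℝ).prod volume) ((volume : Measure ℝ).prod volume) :=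
    measurePreserving_prod_add volume volume
  have hemb : MeasurableEmbedding (fun z : ℝ × ℝ => (z.1, z.1 + z.2)) :=
    (MeasurableEquiv.shearAddRight ℝ).measurableEmbedding
  rw [Measure.volume_eq_prod, ← hmp.integrable_comp_emb hemb]
  have hmaj : Integrable (fun z : ℝ × ℝ =>
      {z : ℝ × ℝ | |z.1| ≤ L + |z.2|}.indicator (fun z => hh k α c H z.2) z)
      ((volume : Measure ℝ).prod volume) := by
    have hms : MeasurableSet {z : ℝ × ℝ | |z.1| ≤ L + |z.2|} :=
      measurableSet_le (by fun_prop) (by fun_prop)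
    have hmh : Measurable (hh k α c H) := by
      unfold hh
      have := X.Hmeas
      fun_prop
    rw [integrable_prod_iff']
    · have hsec : ∀ y x : ℝ, {z : ℝ × ℝ | |z.1| ≤ L + |z.2|}.indicator
          (fun z => hh k α c H z.2) (x, y) =
          (Icc (-(L + |y|)) (L + |y|)).indicator (fun _ => hh k α c H y) x := by
        intro y x
        by_cases hx : |x| ≤ L + |y|
        · rw [indicator_of_mem (show (x, y) ∈ {z : ℝ × ℝ | |z.1| ≤ L + |z.2|} from hx),
            indicator_of_mem (show x ∈ Icc (-(L + |y|)) (L + |y|) from abs_le.1 hx)]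
        · rw [indicator_of_notMem (show (x, y) ∉ {z : ℝ × ℝ | |z.1| ≤ L + |z.2|} from hx),
            indicator_of_notMem (show x ∉ Icc (-(L + |y|)) (L + |y|) from
              fun h => hx (abs_le.2 h))]
      constructor
      · refine Eventually.of_forall fun y => ?_
        simp only [hsec]
        exact (integrable_indicator_iff measurableSet_Icc).2 (integrableOn_const
          (by rw [Real.volume_Icc]; exact ENNReal.ofReal_ne_top))
      · simp only [hsec, norm_indicator_eq_indicator_norm]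
        have h1 := hh_int X 0
        have h2 := hh_int X 1
        simp only [pow_zero, one_mul, pow_one] at h1 h2
        refine ((h1.const_mul (2 * L)).add (h2.const_mul 2)).congr
          (Eventually.of_forall fun y => ?_)
        simp only [Pi.add_apply]
        rw [integral_indicator measurableSet_Icc, setIntegral_const, Real.norm_eq_abs,
          abs_of_nonneg (X.hh0 y), smul_eq_mul, Measure.real, Real.volume_Icc,
          ENNReal.toReal_ofReal (by
            have := abs_nonneg y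
            have := X.crv.pos
            linarith)]
        ring
    · exact ((hmh.comp measurable_snd).indicator hms).aestronglyMeasurable
  refine Integrable.mono' hmaj ((measurable_Dk X).comp
    (measurable_fst.prodMk (measurable_fst.add measurable_snd))).aestronglyMeasurable
    (Eventually.of_forall fun z => ?_)
  simp only [Function.comp]
  obtain ⟨h1, h2⟩ := Dk_bd X z.1 (z.1 + z.2)
  rw [Real.norm_eq_abs, abs_of_nonneg h1]
  by_cases hz : |z.1| ≤ L + |z.2|
  · rw [indicator_of_mem (show z ∈ {z : ℝ × ℝ | |z.1| ≤ L + |z.2|} from hz)]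
    simpa using h2
  · rw [indicator_of_notMem (show z ∉ {z : ℝ × ℝ | |z.1| ≤ L + |z.2|} from hz),
      Dk_lead X z.1 z.2 (not_le.1 hz)]

theorem bdd_of_BC {f : ℝ → ℂ} (hf : BC f) : ∃ M : ℝ, 0 ≤ M ∧ ∀ s, ‖f s‖ ≤ M := by
  obtain ⟨C, hC⟩ := hf.bdd
  exact ⟨C, (norm_nonneg _).trans (hC 0), hC⟩

theorem int_mul {f : ℝ → ℂ} {g : ℝ → ℝ} (hg : Integrable g) (hf : BC f) :
    Integrable (fun t => ((g t : ℝ) : ℂ) * f t) := by
  obtain ⟨M, hM0, hM⟩ := bdd_of_BC hf
  refine Integrable.mono' (hg.norm.const_mul M)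
    (hg.ofReal.aestronglyMeasurable.mul hf.cont.aestronglyMeasurable)
    (Eventually.of_forall fun t => ?_)
  rw [norm_mul, Complex.norm_real, mul_comm]
  exact mul_le_mul_of_nonneg_right (hM t) (norm_nonneg _)

theorem DD_eq (f : ℝ → ℂ) (s : ℝ) :
    DD α k γ f s = ∫ r, ((Dk α k γ s (s + r) : ℝ) : ℂ) * f (s + r) := by
  unfold DD
  rw [← integral_add_left_eq_self (fun t => ((Dk α k γ s t : ℝ) : ℂ) * f t) s]

theorem norm_le (X : Hyp γ L k α c H) {f : ℝ → ℂ} {M : ℝ} (hM : ∀ s, ‖f s‖ ≤ M) (s r : ℝ) :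
    ‖((Dk α k γ s (s + r) : ℝ) : ℂ) * f (s + r)‖ ≤ M * hh k α c H r := by
  obtain ⟨h1, h2⟩ := Dk_bd X s (s + r)
  rw [norm_mul, Complex.norm_real, Real.norm_eq_abs, abs_of_nonneg h1, mul_comm]
  refine mul_le_mul (hM _) (by simpa using h2) h1 ((norm_nonneg _).trans (hM 0))

theorem aesm (X : Hyp γ L k α c H) {f : ℝ → ℂ} (hf : BC f) (s : ℝ) :
    AEStronglyMeasurable (fun r => ((Dk α k γ s (s + r) : ℝ) : ℂ) * f (s + r)) volume := by
  refine AEStronglyMeasurable.mul ?_ ?_
  · refine (Complex.measurable_ofReal.comp ((measurable_Dk X).comp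
      (measurable_const.prodMk (measurable_const.add measurable_id)))).aestronglyMeasurable
  · exact (hf.cont.comp (continuous_const.add continuous_id)).aestronglyMeasurable

theorem hh_int0 (X : Hyp γ L k α c H) : Integrable (hh k α c H) := by
  have h0 := hh_int X 0
  simpa only [pow_zero, one_mul] using h0

theorem ae_ne (a : ℝ) : ∀ᵐ t : ℝ, t ≠ a := by
  rw [ae_iff]
  simp

theorem DD_cont (X : Hyp γ L k α c H) {f : ℝ → ℂ} (hf : BC f) : Continuous (DD α k γ f) := by
  obtain ⟨M, hM0, hM⟩ := bdd_of_BC hf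
  rw [show DD α k γ f = fun s => ∫ r, ((Dk α k γ s (s + r) : ℝ) : ℂ) * f (s + r) from
    funext (DD_eq f)]
  refine continuous_of_dominated (bound := fun r => M * hh k α c H r) (fun s => aesm X hf s)
    (fun s => Eventually.of_forall (norm_le X hM s)) ((hh_int0 X).const_mul M) ?_
  filter_upwards [ae_ne 0] with r hr
  refine Continuous.mul (Complex.continuous_ofReal.comp ?_)
    (hf.cont.comp (continuous_id.add continuous_const))
  unfold Dk
  refine continuous_const.mul (Continuous.sub ?_ ?_)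
  · refine (X.Gcont _ X.μ0).comp_continuous
      (Continuous.norm (X.γc.sub (X.γc.comp (continuous_id.add continuous_const)))) fun s => ?_
    exact dist_pos X fun h => hr (by linarith)
  · have : (fun s : ℝ => Gk (mu α k) |s - (s + r)|) = fun _ => Gk (mu α k) |r| := by
      funext s
      rw [show s - (s + r) = -r by ring, abs_neg]
    rw [this]
    exact continuous_const

theorem DD_tend (X : Hyp γ L k α c H) {f : ℝ → ℂ} (hf : BC f) :
    Tendsto (DD α k γ f) (cocompact ℝ) (𝓝 0) := by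
  obtain ⟨M, hM0, hM⟩ := bdd_of_BC hf
  have key : ∀ F : Filter ℝ, F.IsCountablyGenerated → F ≤ cocompact ℝ →
      Tendsto (DD α k γ f) F (𝓝 0) := by
    intro F hF hle
    rw [show DD α k γ f = fun s => ∫ r, ((Dk α k γ s (s + r) : ℝ) : ℂ) * f (s + r) from
      funext (DD_eq f), show (0 : ℂ) = ∫ _ : ℝ, (0 : ℂ) by simp]
    refine tendsto_integral_filter_of_dominated_convergence (fun r => M * hh k α c H r)
      (Eventually.of_forall fun s => aesm X hf s)
      (Eventually.of_forall fun s => Eventually.of_forall (norm_le X hM s))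
      ((hh_int0 X).const_mul M) (Eventually.of_forall fun r => ?_)
    refine tendsto_const_nhds.congr' ?_
    have h1 : ∀ᶠ s in F, L + |r| < ‖s‖ :=
      hle ((tendsto_norm_cocompact_atTop (E := ℝ)).eventually_gt_atTop (L + |r|))
    filter_upwards [h1] with s hs
    rw [Dk_lead X s r hs, Complex.ofReal_zero, zero_mul]
  rw [cocompact_eq_atBot_atTop, tendsto_sup]
  constructor
  · exact key _ inferInstance (by rw [cocompact_eq_atBot_atTop]; exact le_sup_left)
  · exact key _ inferInstance (by rw [cocompact_eq_atBot_atTop]; exact le_sup_right)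

theorem DD_integrable (X : Hyp γ L k α c H) {f : ℝ → ℂ} (hf : BC f) :
    Integrable (DD α k γ f) := by
  obtain ⟨M, hM0, hM⟩ := bdd_of_BC hf
  have h : Integrable (fun z : ℝ × ℝ => ((Dk α k γ z.1 z.2 : ℝ) : ℂ) * f z.2)
      ((volume : Measure ℝ).prod volume) := by
    have h1 := Dk_int X
    rw [Measure.volume_eq_prod] at h1
    refine Integrable.mono' (h1.const_mul M)
      (h1.ofReal.aestronglyMeasurable.mul (hf.cont.comp continuous_snd).aestronglyMeasurable)
      (Eventually.of_forall fun z => ?_)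
    obtain ⟨h2, -⟩ := Dk_bd X z.1 z.2
    rw [norm_mul, Complex.norm_real, Real.norm_eq_abs, abs_of_nonneg h2, mul_comm]
    exact mul_le_mul_of_nonneg_right (hM _) h2
  exact h.integral_prod_left

theorem DD_bdd (X : Hyp γ L k α c H) {f : ℝ → ℂ} (hf : BC f) :
    ∃ C : ℝ, ∀ s, ‖DD α k γ f s‖ ≤ C := by
  obtain ⟨M, hM0, hM⟩ := bdd_of_BC hf
  refine ⟨∫ r, M * hh k α c H r, fun s => ?_⟩
  rw [DD_eq]
  exact norm_integral_le_of_norm_le ((hh_int0 X).const_mul M)
    (Eventually.of_forall (norm_le X hM s))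

theorem AG_eq (X : Hyp γ L k α c H) {f : ℝ → ℂ} (hf : BC f) (s : ℝ) :
    AG α k γ f s = A0 α k f s + DD α k γ f s := by
  unfold AG A0 DD
  rw [← integral_add (int_mul ((G0_int X s).const_mul α) hf) (int_mul (Dk_int_right X s) hf)]
  refine integral_congr_ae (Eventually.of_forall fun t => ?_)
  simp only [Dk]
  push_cast
  ring

end

/-- LC9 -/
theorem t_D3 (h : S_CHORD) (h2 : S_TAY) (h3 : S_G) : S_D3 := by
  intro γ L k α hγ hd hk hα
  obtain ⟨c, hc0, -, hc⟩ := h γ L hγ hd
  obtain ⟨-, -, hle, -⟩ := h2 γ L hγ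
  obtain ⟨g1, g2, g3, -, g5, H, Q, hH, -, hpos, hanti, hGH, -, hint, -⟩ := h3
  have X : Hyp γ L k α c H := ⟨hγ, hk, hα, hc0, hc, hle, g1, g2, g3, g5, hH,
    fun x hx => (hpos x hx).1, fun x y hx hxy => (hanti x y hx hxy).1, hGH, hint⟩
  exact ⟨fun s t => (Dk_bd X s t).1, fun s t => Dk_symm s t, Dk_int X, Dk_int_right X, G_int X,
    fun f hf => ⟨⟨DD_cont X hf, DD_bdd X hf⟩, DD_integrable X hf, DD_tend X hf, AG_eq X hf⟩⟩

end Pool.Agent.E8helper57.LC
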